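import Mathlib

/-!
# MP_ce417a_nt, Q1 and Q2: both statements are false

The identity `[[x, y]^2, x] = 0`, valid for all `2 × 2` matrices, is a vanishing combination with
coefficients `± 1` of six pairwise distinct words.  For the sequence of these six words every
`ψ(X)` satisfies `ψ(X) q = 0` for infinitely many integer vectors `q`, so every `ψ(X)` is very well
approximable and very well multiplicatively approximable.
-/

namespace Pool.Agent.Results.MP_ce417a_nt.PolynomialIdentity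

open MeasureTheory

/-- `p(X)`: substitution of the matrices `X_k` in the word `p` (a word is a list of letters). -/
def evalWord {m r : ℕ} (X : Fin r → Matrix (Fin m) (Fin m) ℝ) (p : List (Fin r)) :
    Matrix (Fin m) (Fin m) ℝ :=
  (p.map X).prod

/-- `ψ^(P)(X) = p_1(X) ⊕ ⋯ ⊕ p_n(X)`, an `m × mn` matrix; the columns are indexed by pairs
`(ℓ, j)`: the `j`-th column of the `ℓ`-th block. -/
def psi {m n r : ℕ} (P : Fin n → List (Fin r)) (X : Fin r → Matrix (Fin m) (Fin m) ℝ) :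
    Matrix (Fin m) (Fin n × Fin m) ℝ :=
  fun i c => evalWord X (P c.1) i c.2

/-- the vector `A q - p` -/
def err {m : ℕ} {ι : Type} [Fintype ι] (A : Matrix (Fin m) ι ℝ) (q : ι → ℤ) (p : Fin m → ℤ) :
    Fin m → ℝ :=
  fun i => (∑ c, A i c * (q c : ℝ)) - (p i : ℝ)

/-- Very well approximable: `ω(A) > N/m`, i.e. for some `w > N/m` there are infinitely many integer
vectors `q ≠ 0` with `‖A q - p‖ ≤ ‖q‖^(-w)` for some integer vector `p` (sup norms). -/
def VWA {m : ℕ} {ι : Type} [Fintype ι] (A : Matrix (Fin m) ι ℝ) : Prop :=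
  ∃ w : ℝ, (Fintype.card ι : ℝ) / m < w ∧
    {q : ι → ℤ | q ≠ 0 ∧ ∃ p : Fin m → ℤ, ‖err A q p‖ ≤ ‖(fun c => (q c : ℝ))‖ ^ (-w)}.Infinite

/-- Very well multiplicatively approximable: `ω_×(A) > 1`, i.e. for some `w > 1` there are
infinitely many integer vectors `q ≠ 0` with
`∏ |(A q - p)_i| ≤ (∏ max(|q_j|, 1))^(-w)` for some integer vector `p`. -/
def VWMA {m : ℕ} {ι : Type} [Fintype ι] (A : Matrix (Fin m) ι ℝ) : Prop :=
  ∃ w : ℝ, 1 < w ∧
    {q : ι → ℤ | q ≠ 0 ∧ ∃ p : Fin m → ℤ,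
      ∏ i, |err A q p i| ≤ (∏ c, max |(q c : ℝ)| 1) ^ (-w)}.Infinite

/-- The statement asked about in Q1. -/
def StronglyExtremalAlways : Prop :=
  ∀ m n r : ℕ, 2 ≤ m → 1 ≤ n → 1 ≤ r → ∀ P : Fin n → List (Fin r),
    Function.Injective P → (∀ l, P l ≠ []) →
    ∀ᵐ X : Fin r → Fin m → Fin m → ℝ, ¬ VWMA (psi P (fun k => Matrix.of (X k)))

/-- The statement asked about in Q2. -/
def ExtremalAlways : Prop :=
  ∀ m n r : ℕ, 2 ≤ m → 1 ≤ n → 1 ≤ r → ∀ P : Fin n → List (Fin r),
    Function.Injective P → (∀ l, P l ≠ []) →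
    ∀ᵐ X : Fin r → Fin m → Fin m → ℝ, ¬ VWA (psi P (fun k => Matrix.of (X k)))

/-- The six words of the identity `[[x, y]^2, x] = 0`, with `x = 0`, `y = 1`. -/
def W : Fin 6 → List (Fin 2) :=
  ![[0, 1, 1, 0, 0], [1, 0, 0, 1, 0], [1, 0, 1, 0, 0], [0, 0, 1, 0, 1], [0, 0, 1, 1, 0],
    [0, 1, 0, 0, 1]]

/-- Their signs. -/
def sgn : Fin 6 → ℤ := ![-1, -1, 1, -1, 1, 1]

lemma W_injective : Function.Injective W := by
  decide

lemma W_ne (l : Fin 6) : W l ≠ [] := by
  fin_cases l <;> simp [W]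

lemma identity (X : Fin 2 → Matrix (Fin 2) (Fin 2) ℝ) (i j : Fin 2) :
    ∑ l, evalWord X (W l) i j * (sgn l : ℝ) = 0 := by
  simp only [Fin.sum_univ_six, W, sgn, evalWord]
  simp [Matrix.mul_apply, Fin.sum_univ_two]
  fin_cases i <;> fin_cases j <;> simp <;> ring

/-- the vectors `q` -/
def qv (t : ℕ) : Fin 6 × Fin 2 → ℤ := fun c => sgn c.1 * (t + 1)

lemma qv_injective : Function.Injective qv := by
  intro s t h
  have := congrFun h (5, 0)
  simp [qv, sgn] at this
  exact this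

lemma qv_ne (t : ℕ) : qv t ≠ 0 := by
  intro h
  have := congrFun h (5, 0)
  simp [qv, sgn] at this
  omega

lemma err_zero (X : Fin 2 → Matrix (Fin 2) (Fin 2) ℝ) (t : ℕ) :
    err (psi W X) (qv t) 0 = 0 := by
  funext i
  simp only [err, psi, qv, Pi.zero_apply, Int.cast_zero, sub_zero, Fintype.sum_prod_type_right]
  apply Finset.sum_eq_zero
  intro j _
  have h := identity X i j
  calc ∑ l, evalWord X (W l) i j * ((sgn l * ((t : ℤ) + 1) : ℤ) : ℝ)
      = (∑ l, evalWord X (W l) i j * (sgn l : ℝ)) * ((t : ℝ) + 1) := by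
        rw [Finset.sum_mul]
        apply Finset.sum_congr rfl
        intro l _
        push_cast; ring
    _ = 0 := by rw [h, zero_mul]

lemma vwa (X : Fin 2 → Matrix (Fin 2) (Fin 2) ℝ) : VWA (psi W X) := by
  refine ⟨((Fintype.card (Fin 6 × Fin 2) : ℕ) : ℝ) / (2 : ℕ) + 1, by linarith, ?_⟩
  apply (Set.infinite_range_of_injective qv_injective).mono
  rintro _ ⟨t, rfl⟩
  refine ⟨qv_ne t, 0, ?_⟩
  rw [err_zero, norm_zero]
  positivity

lemma vwma (X : Fin 2 → Matrix (Fin 2) (Fin 2) ℝ) : VWMA (psi W X) := by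
  refine ⟨2, by norm_num, ?_⟩
  apply (Set.infinite_range_of_injective qv_injective).mono
  rintro _ ⟨t, rfl⟩
  refine ⟨qv_ne t, 0, ?_⟩
  rw [err_zero]
  have h0 : ∏ i : Fin 2, |(0 : Fin 2 → ℝ) i| = 0 := by simp
  rw [h0]
  apply Real.rpow_nonneg
  apply Finset.prod_nonneg
  intro c _
  exact le_max_of_le_right zero_le_one

/-- **Disproof of Q1 and Q2.**  For `m = 2`, `r = 2`, `n = 6` and the six (pairwise distinct,
nonempty) words `W`, the matrix `ψ^(W)(X)` is VWA and VWMA for *every* `X`; so neither the statement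
of Q1 nor that of Q2 holds, and in both cases the exceptional set is everything. -/
theorem result :
    (Function.Injective W ∧ (∀ l, W l ≠ []) ∧
      (∀ X : Fin 2 → Matrix (Fin 2) (Fin 2) ℝ, VWA (psi W X) ∧ VWMA (psi W X)) ∧
      0 < volume {X : Fin 2 → Fin 2 → Fin 2 → ℝ | VWMA (psi W (fun k => Matrix.of (X k)))} ∧
      0 < volume {X : Fin 2 → Fin 2 → Fin 2 → ℝ | VWA (psi W (fun k => Matrix.of (X k)))}) ∧
    ¬ StronglyExtremalAlways ∧ ¬ ExtremalAlways := by
  have hu1 : {X : Fin 2 → Fin 2 → Fin 2 → ℝ | VWMA (psi W (fun k => Matrix.of (X k)))}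
      = Set.univ := by
    apply Set.eq_univ_of_forall
    intro X; exact vwma _
  have hu2 : {X : Fin 2 → Fin 2 → Fin 2 → ℝ | VWA (psi W (fun k => Matrix.of (X k)))}
      = Set.univ := by
    apply Set.eq_univ_of_forall
    intro X; exact vwa _
  have hopen : Measure.IsOpenPosMeasure (volume : Measure (Fin 2 → Fin 2 → Fin 2 → ℝ)) := by
    rw [volume_pi]
    exact Measure.pi.isOpenPosMeasure _
  have hpos : 0 < volume (Set.univ : Set (Fin 2 → Fin 2 → Fin 2 → ℝ)) :=
    isOpen_univ.measure_pos _ Set.univ_nonempty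
  refine ⟨⟨W_injective, W_ne, fun X => ⟨vwa X, vwma X⟩, by rw [hu1]; exact hpos,
    by rw [hu2]; exact hpos⟩, ?_, ?_⟩
  · intro h
    have := h 2 6 2 le_rfl (by norm_num) (by norm_num) W W_injective W_ne
    have h2 : ∀ᵐ X : Fin 2 → Fin 2 → Fin 2 → ℝ, False := by
      filter_upwards [this] with X hX
      exact hX (vwma _)
    rw [ae_iff] at h2
    simp only [not_false_eq_true, Set.ofPred_true] at h2
    exact hpos.ne' h2
  · intro h
    have := h 2 6 2 le_rfl (by norm_num) (by norm_num) W W_injective W_ne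
    have h2 : ∀ᵐ X : Fin 2 → Fin 2 → Fin 2 → ℝ, False := by
      filter_upwards [this] with X hX
      exact hX (vwa _)
    rw [ae_iff] at h2
    simp only [not_false_eq_true, Set.ofPred_true] at h2
    exact hpos.ne' h2

end Pool.Agent.Results.MP_ce417a_nt.PolynomialIdentity
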